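import Pool.Agent.Helper21.WE.Stmts
import Pool.Agent.Helper92.AHS.Fld

/-!
# DSC: descent of a space of matrices over the complex numbers
-/

set_option autoImplicit false

open Matrix

namespace MT

/-- the set of the nonzero entries -/
private noncomputable def nz72 {n : ℕ} (A : Matrix (Fin n) (Fin n) ℂ) : Finset (Fin n × Fin n) :=
  Finset.univ.filter fun p => A p.1 p.2 ≠ 0

theorem st_DSC : ST_DSC := by
  classical
  intro n W hσ hQ
  by_contra hcon
  push Not at hcon
  obtain ⟨A₀, hA₀, hA₀0⟩ := hcon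
  -- an element with the least number of nonzero entries
  obtain ⟨A, ⟨hA, hA0⟩, hmin⟩ : ∃ A : Matrix (Fin n) (Fin n) ℂ, (A ∈ W ∧ A ≠ 0) ∧
      ∀ B : Matrix (Fin n) (Fin n) ℂ, (B ∈ W ∧ B ≠ 0) → (nz72 A).card ≤ (nz72 B).card := by
    have hex : ∃ k, ∃ A : Matrix (Fin n) (Fin n) ℂ, (A ∈ W ∧ A ≠ 0) ∧ (nz72 A).card = k :=
      ⟨_, A₀, ⟨hA₀, hA₀0⟩, rfl⟩
    obtain ⟨A, hA, hAk⟩ := Nat.find_spec hex
    refine ⟨A, hA, fun B hB => ?_⟩
    rw [hAk]
    exact Nat.find_min' hex ⟨B, hB, rfl⟩
  obtain ⟨i, j, hij⟩ : ∃ i j, A i j ≠ 0 := by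
    by_contra h
    push Not at h
    exact hA0 (Matrix.ext h)
  -- scale
  set B : Matrix (Fin n) (Fin n) ℂ := (A i j)⁻¹ • A with hB
  have hBW : B ∈ W := W.smul_mem _ hA
  have hBij : B i j = 1 := by
    rw [hB, Matrix.smul_apply, smul_eq_mul, inv_mul_cancel₀ hij]
  have hBnz : nz72 B = nz72 A := by
    ext p
    simp only [nz72, Finset.mem_filter, Finset.mem_univ, true_and, hB, Matrix.smul_apply,
      smul_eq_mul, ne_eq, mul_eq_zero, inv_eq_zero, not_or]
    exact ⟨fun h => h.2, fun h => ⟨hij, h⟩⟩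
  have hfix : ∀ σ : ℂ ≃+* ℂ, B.map σ = B := by
    intro σ
    by_contra hne
    have hC : B.map σ - B ∈ W ∧ B.map σ - B ≠ 0 :=
      ⟨W.sub_mem (hσ σ B hBW) hBW, sub_ne_zero.2 hne⟩
    have h1 := hmin _ hC
    have h2 : nz72 (B.map σ - B) ⊂ nz72 B := by
      rw [Finset.ssubset_iff_of_subset]
      · refine ⟨(i, j), ?_, ?_⟩
        · simp only [nz72, Finset.mem_filter, Finset.mem_univ, true_and, hBij]
          exact one_ne_zero
        · simp only [nz72, Finset.mem_filter, Finset.mem_univ, true_and, not_not,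
            Matrix.sub_apply, Matrix.map_apply, hBij, map_one, sub_self]
      · intro p
        simp only [nz72, Finset.mem_filter, Finset.mem_univ, true_and]
        intro hp h0
        apply hp
        rw [Matrix.sub_apply, Matrix.map_apply, h0, map_zero, sub_self]
    have h3 := Finset.card_lt_card h2
    rw [hBnz] at h3
    exact absurd h1 (not_le.2 h3)
  have hrat : ∀ k l, ∃ q : ℚ, (q : ℂ) = B k l := fun k l =>
    Pool.Agent.Helper92.AHS.rat_of_fixed (B k l) fun τ => by
      have := congrFun (congrFun (hfix τ) k) l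
      rwa [Matrix.map_apply] at this
  choose q hq using hrat
  have hM : (Matrix.of q).map (algebraMap ℚ ℂ) = B := by
    ext k l
    rw [Matrix.map_apply, Matrix.of_apply, ← hq k l]
    rfl
  have h0 := hQ (Matrix.of q) (by rw [hM]; exact hBW)
  rw [h0] at hM
  have : B i j = 0 := by
    rw [← hM, Matrix.map_apply, Matrix.zero_apply, map_zero]
  rw [hBij] at this
  exact one_ne_zero this

end MT
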