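import Pool.Agent.Helper21.WE.CZ
import Pool.Agent.Helper92.WD.BND

/-!
# IDL: the ideal `Cen`
-/

set_option autoImplicit false

open Matrix

namespace MT

namespace IDLx

open BND92

variable {K : Type} [Field K] {n : ℕ}

/-- homogeneous vectors -/
def Vh (s : Fin n → ℤ) (x : ℤ) (v : Fin n → K) : Prop := ∀ j, v j ≠ 0 → s j = x

theorem Vh.mulVec {s : Fin n → ℤ} {x y z : ℤ} {A : Matrix (Fin n) (Fin n) K} {v : Fin n → K}
    (hA : Hm s x A) (hv : Vh s y v) (hz : x + y = z) : Vh s z (A.mulVec v) := by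
  intro j hj
  rw [Matrix.mulVec, dotProduct] at hj
  obtain ⟨k, _, hk⟩ := Finset.exists_ne_zero_of_sum_ne_zero hj
  have h1 := hA j k (left_ne_zero_of_mul hk)
  have h2 := hv k (right_ne_zero_of_mul hk)
  omega

theorem Vh.zero_of {s : Fin n → ℤ} (hs : ∀ j, |s j| ≤ 1) {x : ℤ} {v : Fin n → K}
    (hv : Vh s x v) (hx : 1 < |x|) : v = 0 := by
  funext j
  by_contra hc
  have h1 := hv j hc
  have h2 := hs j
  rw [h1] at h2
  omega

theorem brkv (A B : Matrix (Fin n) (Fin n) K) (v : Fin n → K) :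
    A.mulVec (B.mulVec v) = (A * B - B * A).mulVec v + B.mulVec (A.mulVec v) := by
  rw [Matrix.sub_mulVec, Matrix.mulVec_mulVec, Matrix.mulVec_mulVec, sub_add_cancel]

theorem cmp_mul_r {s : Fin n → ℤ} {e : ℤ} {B : Matrix (Fin n) (Fin n) K} (hB : Hm s e B) (k : ℤ)
    (A : Matrix (Fin n) (Fin n) K) : cmp s (k + e) (A * B) = cmp s k A * B := by
  ext i j
  simp only [cmp, Matrix.of_apply, Matrix.mul_apply]
  split_ifs with h
  · refine Finset.sum_congr rfl fun l _ => ?_
    by_cases hl : B l j = 0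
    · rw [hl, mul_zero, mul_zero]
    · have h1 := hB l j hl
      rw [if_pos (by omega)]
  · symm
    refine Finset.sum_eq_zero fun l _ => ?_
    by_cases hl : B l j = 0
    · rw [hl, mul_zero]
    · have h1 := hB l j hl
      rw [if_neg (by omega), zero_mul]

theorem cmp_mul_l {s : Fin n → ℤ} {e : ℤ} {B : Matrix (Fin n) (Fin n) K} (hB : Hm s e B) (k : ℤ)
    (A : Matrix (Fin n) (Fin n) K) : cmp s (k + e) (B * A) = B * cmp s k A := by
  ext i j
  simp only [cmp, Matrix.of_apply, Matrix.mul_apply]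
  split_ifs with h
  · refine Finset.sum_congr rfl fun l _ => ?_
    by_cases hl : B i l = 0
    · rw [hl, zero_mul, zero_mul]
    · have h1 := hB i l hl
      rw [if_pos (by omega)]
  · symm
    refine Finset.sum_eq_zero fun l _ => ?_
    by_cases hl : B i l = 0
    · rw [hl, zero_mul]
    · have h1 := hB i l hl
      rw [if_neg (by omega), mul_zero]

/-- the top piece is generated by the middle piece -/
theorem top_span' (tpi : ST_TPI) {ε : K} {ψ : Matrix (Fin n) (Fin n) K} {s : Fin n → ℤ}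
    {a : Submodule K (Matrix (Fin n) (Fin n) K)} (gs : GrD ε ψ s a) (hs : ∀ j, |s j| ≤ 1)
    (sp2 : ∀ v : Fin n → K, (∀ j, v j ≠ 0 → s j = 0) →
      (∀ A ∈ a, cmp s 1 A = A → A.mulVec v = 0) → v = 0) (hex0 : ∃ j, s j = 0)
    (v : Fin n → K) (hv : Vh s 1 v) :
    v ∈ Submodule.span K {w : Fin n → K | ∃ A ∈ a, cmp s 1 A = A ∧
      ∃ x : Fin n → K, (∀ j, x j ≠ 0 → s j = 0) ∧ w = A.mulVec x} := by
  set U : Submodule K (Fin n → K) := Submodule.span K {w | ∃ A ∈ a, cmp s 1 A = A ∧
    ∃ x : Fin n → K, (∀ j, x j ≠ 0 → s j = 0) ∧ w = A.mulVec x} with hU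
  have hU1 : ∀ v ∈ U, ∀ j, v j ≠ 0 → s j = 1 := by
    intro v hv
    induction hv using Submodule.span_induction with
    | mem v hv =>
      obtain ⟨A, hA, hA1, x, hx, rfl⟩ := hv
      exact Vh.mulVec (hm_iff.mp hA1) (show Vh s 0 x from hx) (by norm_num)
    | zero => intro j hj; exact absurd rfl hj
    | add x y _ _ hx hy =>
      intro j hj
      by_cases h : x j = 0
      · refine hy j fun h' => hj ?_
        rw [Pi.add_apply, h, h', add_zero]
      · exact hx j h
    | smul c x _ hx =>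
      intro j hj
      exact hx j fun h => hj (by rw [Pi.smul_apply, h, smul_zero])
  have hUs : ∀ A ∈ a, cmp s 0 A = A → ∀ v ∈ U, A.mulVec v ∈ U := by
    intro A hA hA0 v hv
    induction hv using Submodule.span_induction with
    | mem v hv =>
      obtain ⟨B, hB, hB1, x, hx, rfl⟩ := hv
      rw [brkv]
      have h1 : Hm s 1 (A * B - B * A) :=
        Hm.brk (hm_iff.mp hA0) (hm_iff.mp hB1) (by norm_num)
      refine Submodule.add_mem _ (Submodule.subset_span ⟨_, gs.brk _ hA _ hB,
        hm_iff.mpr h1, x, hx, rfl⟩) (Submodule.subset_span ⟨B, hB, hB1, _, ?_, rfl⟩)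
      exact Vh.mulVec (hm_iff.mp hA0) (show Vh s 0 x from hx) (by norm_num)
    | zero => rw [Matrix.mulVec_zero]; exact Submodule.zero_mem _
    | add x y _ _ hx hy => rw [Matrix.mulVec_add]; exact Submodule.add_mem _ hx hy
    | smul c x _ hx => rw [Matrix.mulVec_smul]; exact Submodule.smul_mem _ c hx
  rcases tpi K n a s 1 gs.brk gs.irr gs.comp (fun j => (abs_le.mp (hs j)).2) U hU1 hUs with h | h
  · exfalso
    obtain ⟨j₀, hj₀⟩ := hex0
    have h1 : (Pi.single j₀ 1 : Fin n → K) = 0 := by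
      refine sp2 _ ?_ ?_
      · intro j hj
        by_cases hjj : j = j₀
        · rw [hjj, hj₀]
        · exact absurd (Pi.single_eq_of_ne hjj 1) hj
      · intro A hA hA1
        have h2 : A.mulVec (Pi.single j₀ 1) ∈ U := by
          refine Submodule.subset_span ⟨A, hA, hA1, _, ?_, rfl⟩
          intro j hj
          by_cases hjj : j = j₀
          · rw [hjj, hj₀]
          · exact absurd (Pi.single_eq_of_ne hjj 1) hj
        rw [h, Submodule.mem_bot] at h2
        exact h2
    have h2 := congrFun h1 j₀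
    rw [Pi.single_eq_same] at h2
    exact one_ne_zero h2
  · exact h v hv

/-- the opposite grading -/
theorem GrD_neg {ε : K} {ψ : Matrix (Fin n) (Fin n) K} {s : Fin n → ℤ}
    {a : Submodule K (Matrix (Fin n) (Fin n) K)} (gs : GrD ε ψ s a) :
    GrD ε ψ (fun j => - s j) a :=
  { unit := gs.unit
    symm := gs.symm
    sign := gs.sign
    grad := by
      intro i j hij
      have h1 := gs.grad i j hij
      omega
    brk := gs.brk
    iso := gs.iso
    irr := gs.irr
    comp := by
      intro A hA x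
      have h1 : cmp (fun j => - s j) x A = cmp s (-x) A := by
        ext i j
        simp only [cmp, Matrix.of_apply]
        by_cases h : s i - s j = -x
        · rw [if_pos h, if_pos (by omega)]
        · rw [if_neg h, if_neg (by omega)]
      rw [h1]
      exact gs.comp A hA (-x) }

theorem cmp_neg (s : Fin n → ℤ) (x : ℤ) (A : Matrix (Fin n) (Fin n) K) :
    cmp (fun j => - s j) x A = cmp s (-x) A := by
  ext i j
  simp only [cmp, Matrix.of_apply]
  by_cases h : s i - s j = -x
  · rw [if_pos h, if_pos (by omega)]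
  · rw [if_neg h, if_neg (by omega)]

/-- there are vectors of degree `-1` -/
theorem ex_neg {ε : K} {ψ : Matrix (Fin n) (Fin n) K} {s : Fin n → ℤ}
    {a : Submodule K (Matrix (Fin n) (Fin n) K)} (gs : GrD ε ψ s a) (h1 : ∃ j, s j = 1) :
    ∃ j, - s j = 1 := by
  obtain ⟨j, hj⟩ := h1
  by_contra hno
  push Not at hno
  apply gs.unit
  apply Matrix.det_eq_zero_of_row_eq_zero j
  intro k
  by_contra hk
  have := gs.grad j k hk
  exact hno k (by omega)

/-- The elements which commute with degrees `1` and `-1` and kill the top piece are zero. -/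
theorem zero_of_top [CharZero K] (spb : ST_SPB) (tpi : ST_TPI) {ε : K}
    {ψ : Matrix (Fin n) (Fin n) K} {s : Fin n → ℤ}
    {a : Submodule K (Matrix (Fin n) (Fin n) K)} (gs : GrD ε ψ s a) (hs : ∀ j, |s j| ≤ 1)
    (h1 : ∃ j, s j = 1) (h0 : ∃ j, s j = 0) {A : Matrix (Fin n) (Fin n) K}
    (hA : ∀ B ∈ a, (cmp s 1 B = B ∨ cmp s (-1) B = B) → A * B = B * A)
    (hk : ∀ v : Fin n → K, Vh s 1 v → A.mulVec v = 0) : A = 0 := by
  have gn := GrD_neg gs
  have hsn : ∀ j, |(fun j => - s j) j| ≤ 1 := fun j => by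
    show |-(s j)| ≤ 1
    rw [abs_neg]
    exact hs j
  have spn := spb K n ε ψ _ a gn hsn (ex_neg gs h1)
  have k0 : ∀ v : Fin n → K, Vh s 0 v → A.mulVec v = 0 := by
    intro v hv
    have h2 := (spb K n ε ψ s a gs hs h1).1 v hv
    have h3 : Submodule.span K {u | ∃ A ∈ a, cmp s (-1) A = A ∧ ∃ x : Fin n → K,
        (∀ j, x j ≠ 0 → s j = 1) ∧ u = A.mulVec x} ≤ LinearMap.ker A.mulVecLin := by
      rw [Submodule.span_le]
      rintro u ⟨B, hB, hB1, x, hx, rfl⟩
      rw [SetLike.mem_coe, LinearMap.mem_ker, Matrix.mulVecLin_apply, Matrix.mulVec_mulVec,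
        hA B hB (Or.inr hB1), ← Matrix.mulVec_mulVec, hk x hx, Matrix.mulVec_zero]
    exact h3 h2
  have kn : ∀ v : Fin n → K, Vh s (-1) v → A.mulVec v = 0 := by
    intro v hv
    have h2 := top_span' tpi gn hsn spn.2 (by
      obtain ⟨j, hj⟩ := h0
      exact ⟨j, by show - s j = 0; omega⟩) v (by
      intro j hj
      have := hv j hj
      show - s j = 1
      omega)
    have h3 : Submodule.span K {w : Fin n → K | ∃ A ∈ a, cmp (fun j => - s j) 1 A = A ∧
      ∃ x : Fin n → K, (∀ j, x j ≠ 0 → - s j = 0) ∧ w = A.mulVec x} ≤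
        LinearMap.ker A.mulVecLin := by
      rw [Submodule.span_le]
      rintro u ⟨B, hB, hB1, x, hx, rfl⟩
      rw [cmp_neg] at hB1
      rw [SetLike.mem_coe, LinearMap.mem_ker, Matrix.mulVecLin_apply, Matrix.mulVec_mulVec,
        hA B hB (Or.inr hB1), ← Matrix.mulVec_mulVec, k0 x (by
          intro j hj
          have := hx j hj
          omega), Matrix.mulVec_zero]
    exact h3 h2
  ext i j
  have h2 : A.mulVec (Pi.single j 1) = 0 := by
    have h3 : Vh s (s j) (Pi.single j (1 : K)) := by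
      intro k hk
      by_cases hkj : k = j
      · rw [hkj]
      · exact absurd (Pi.single_eq_of_ne hkj 1) hk
    have h4 := abs_le.mp (hs j)
    rcases (show s j = 1 ∨ s j = 0 ∨ s j = -1 by omega) with h5 | h5 | h5
    · rw [h5] at h3
      exact hk _ h3
    · rw [h5] at h3
      exact k0 _ h3
    · rw [h5] at h3
      exact kn _ h3
  have h3 := congrFun h2 i
  rw [Matrix.mulVec_single_one] at h3
  exact h3

/-- the grading element in diagonal form -/
theorem comm_iff [CharZero K] {s : Fin n → ℤ} {B : Matrix (Fin n) (Fin n) K} (x : ℤ) :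
    Matrix.diagonal (fun j => (s j : K)) * B - B * Matrix.diagonal (fun j => (s j : K)) =
      (x : K) • B ↔ Hm s x B := by
  constructor
  · intro h i j hij
    have h1 := congrFun (congrFun h i) j
    rw [Matrix.sub_apply, Matrix.diagonal_mul, Matrix.mul_diagonal, Matrix.smul_apply,
      smul_eq_mul] at h1
    have h2 : ((s i - s j : ℤ) : K) * B i j = (x : K) * B i j := by
      rw [← h1]
      push_cast
      ring
    have h3 := mul_right_cancel₀ hij h2
    exact_mod_cast h3
  · intro h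
    ext i j
    rw [Matrix.sub_apply, Matrix.diagonal_mul, Matrix.mul_diagonal, Matrix.smul_apply,
      smul_eq_mul]
    by_cases hij : B i j = 0
    · rw [hij]
      ring
    · rw [← h i j hij]
      push_cast
      ring

theorem mem_cen [CharZero K] {s : Fin n → ℤ} {a : Submodule K (Matrix (Fin n) (Fin n) K)}
    {A : Matrix (Fin n) (Fin n) K} :
    A ∈ Cen a (Matrix.diagonal (fun j => (s j : K))) ↔
      A ∈ a ∧ ∀ B ∈ a, (cmp s 1 B = B ∨ cmp s (-1) B = B) → A * B = B * A := by
  have h1 : ∀ B : Matrix (Fin n) (Fin n) K, (Matrix.diagonal (fun j => (s j : K)) * B -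
      B * Matrix.diagonal (fun j => (s j : K)) = B ∨ Matrix.diagonal (fun j => (s j : K)) * B -
      B * Matrix.diagonal (fun j => (s j : K)) = -B) ↔ (cmp s 1 B = B ∨ cmp s (-1) B = B) := by
    intro B
    rw [hm_iff, hm_iff, ← comm_iff, ← comm_iff]
    push_cast
    rw [one_smul, neg_smul, one_smul]
  constructor
  · rintro ⟨h2, h3⟩
    exact ⟨h2, fun B hB h => h3 B hB ((h1 B).mpr h)⟩
  · rintro ⟨h2, h3⟩
    exact ⟨h2, fun B hB h => h3 B hB ((h1 B).mp h)⟩

/-- homogeneous components of the elements of `Cen` -/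
theorem cen_cmp {s : Fin n → ℤ} {a : Submodule K (Matrix (Fin n) (Fin n) K)}
    {A : Matrix (Fin n) (Fin n) K}
    (hA : ∀ B ∈ a, (cmp s 1 B = B ∨ cmp s (-1) B = B) → A * B = B * A) (k : ℤ) :
    ∀ B ∈ a, (cmp s 1 B = B ∨ cmp s (-1) B = B) → cmp s k A * B = B * cmp s k A := by
  intro B hB h
  have h1 := hA B hB h
  rcases h with h | h
  · rw [← cmp_mul_r (hm_iff.mp h), ← cmp_mul_l (hm_iff.mp h), h1]
  · rw [← cmp_mul_r (hm_iff.mp h), ← cmp_mul_l (hm_iff.mp h), h1]

/-- the elements of `Cen` have degree zero -/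
theorem cen_deg [CharZero K] (spb : ST_SPB) (tpi : ST_TPI) {ε : K}
    {ψ : Matrix (Fin n) (Fin n) K} {s : Fin n → ℤ}
    {a : Submodule K (Matrix (Fin n) (Fin n) K)} (gs : GrD ε ψ s a) (hs : ∀ j, |s j| ≤ 1)
    (h1 : ∃ j, s j = 1) (h0 : ∃ j, s j = 0) {A : Matrix (Fin n) (Fin n) K}
    (hA : ∀ B ∈ a, (cmp s 1 B = B ∨ cmp s (-1) B = B) → A * B = B * A) : Hm s 0 A := by
  intro i j hij
  by_contra hne
  obtain ⟨k, hk⟩ : ∃ k, k = s i - s j := ⟨_, rfl⟩
  have hk0 : k ≠ 0 := by
    intro h
    omega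
  have h2 : cmp s k A = 0 := by
    rcases lt_or_gt_of_ne hk0 with h3 | h3
    · have hsn : ∀ j, |(fun j => - s j) j| ≤ 1 := fun j => by
        show |-(s j)| ≤ 1
        rw [abs_neg]
        exact hs j
      refine zero_of_top spb tpi (GrD_neg gs) hsn (ex_neg gs h1) (by
        obtain ⟨j, hj⟩ := h0
        exact ⟨j, by show - s j = 0; omega⟩) ?_ ?_
      · intro B hB h
        rw [cmp_neg, cmp_neg, neg_neg] at h
        exact cen_cmp hA k B hB h.symm
      · intro v hv
        have h4 : Vh s (-1) v := fun j hj => by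
          have : - s j = 1 := hv j hj
          omega
        exact Vh.zero_of hs (Vh.mulVec (hm_cmp s k A) h4 rfl) (by
          rw [lt_abs]
          right
          omega)
    · refine zero_of_top spb tpi gs hs h1 h0 (cen_cmp hA k) ?_
      intro v hv
      exact Vh.zero_of hs (Vh.mulVec (hm_cmp s k A) hv rfl) (by
        rw [lt_abs]
        left
        omega)
  have h3 := congrFun (congrFun h2 i) j
  simp only [cmp, Matrix.of_apply, Matrix.zero_apply] at h3
  rw [if_pos hk.symm] at h3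
  exact hij h3

/-- `B` commutes with the bracket of `A` and `X` if it commutes with `A` and `X` -/
theorem com_brk {A B X : Matrix (Fin n) (Fin n) K} (h1 : B * A = A * B) (h2 : B * X = X * B) :
    B * (A * X - X * A) = (A * X - X * A) * B := by
  rw [Matrix.mul_sub, Matrix.sub_mul, ← Matrix.mul_assoc, ← Matrix.mul_assoc, h1, h2,
    Matrix.mul_assoc, Matrix.mul_assoc, h1, h2]
  simp only [Matrix.mul_assoc]

theorem sum_cmp {s : Fin n → ℤ} (hs : ∀ j, |s j| ≤ 1) (A : Matrix (Fin n) (Fin n) K) :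
    A = ∑ x ∈ Finset.Icc (-2 : ℤ) 2, cmp s x A := by
  ext i j
  rw [Matrix.sum_apply]
  have h1 := abs_le.mp (hs i)
  have h2 := abs_le.mp (hs j)
  rw [Finset.sum_eq_single (s i - s j)]
  · simp [cmp]
  · intro b _ hb
    simp [cmp, Ne.symm hb]
  · intro h
    exact absurd (Finset.mem_Icc.mpr ⟨by omega, by omega⟩) h

/-- the theorem for a diagonal grading element -/
theorem core [CharZero K] (spb : ST_SPB) (tpi : ST_TPI) {ε : K}
    {ψ : Matrix (Fin n) (Fin n) K} {s : Fin n → ℤ}
    {a : Submodule K (Matrix (Fin n) (Fin n) K)} (gs : GrD ε ψ s a) (hs : ∀ j, |s j| ≤ 1)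
    (h1 : ∃ j, s j = 1) (h0 : ∃ j, s j = 0) {T : Matrix (Fin n) (Fin n) K}
    (hT : T = Matrix.diagonal (fun j => (s j : K))) :
    Idl a (Cen a T) ∧ (∀ B ∈ Cen a T, T * B = B * T) ∧
    ∀ X ∈ a, (∃ c : K, X * (T * T + T) = c • (T * T + T)) → ∀ B ∈ Cen a T, X * B = B * X := by
  subst hT
  have hdeg : ∀ B ∈ Cen a (Matrix.diagonal (fun j => (s j : K))), Hm s 0 B := fun B hB =>
    cen_deg spb tpi gs hs h1 h0 (mem_cen.mp hB).2
  have hid : ∀ A ∈ a, ∀ B ∈ Cen a (Matrix.diagonal (fun j => (s j : K))),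
      A * B - B * A ∈ Cen a (Matrix.diagonal (fun j => (s j : K))) := by
    intro A hA B hB
    obtain ⟨hBa, hBc⟩ := mem_cen.mp hB
    refine mem_cen.mpr ⟨gs.brk A hA B hBa, fun X hX hX1 => ?_⟩
    have hBX := hBc X hX hX1
    have key : ∀ k ∈ Finset.Icc (-2 : ℤ) 2, B * (cmp s k A * X - X * cmp s k A) =
        (cmp s k A * X - X * cmp s k A) * B := by
      intro k hk
      rw [Finset.mem_Icc] at hk
      have hAk := gs.comp A hA k
      by_cases hk1 : k = 1
      · subst hk1
        exact com_brk (hBc _ hAk (Or.inl (hm_iff.mpr (hm_cmp _ _ _)))) hBX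
      by_cases hk2 : k = -1
      · subst hk2
        exact com_brk (hBc _ hAk (Or.inr (hm_iff.mpr (hm_cmp _ _ _)))) hBX
      have hY := gs.brk _ hAk _ hX
      rcases hX1 with hX1 | hX1
      · have hd : Hm s (k + 1) (cmp s k A * X - X * cmp s k A) :=
          Hm.brk (hm_cmp s k A) (hm_iff.mp hX1) rfl
        by_cases hk0 : k = 0
        · rw [hk0] at hd hY ⊢
          exact hBc _ hY (Or.inl (hm_iff.mpr hd))
        by_cases hkm : k = -2
        · rw [hkm] at hd hY ⊢
          exact hBc _ hY (Or.inr (hm_iff.mpr hd))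
        have hz : cmp s k A * X - X * cmp s k A = 0 := Hm.zero_of hs hd (by
          rw [lt_abs]
          omega)
        rw [hz, Matrix.mul_zero, Matrix.zero_mul]
      · have hd : Hm s (k + -1) (cmp s k A * X - X * cmp s k A) :=
          Hm.brk (hm_cmp s k A) (hm_iff.mp hX1) rfl
        by_cases hk0 : k = 0
        · rw [hk0] at hd hY ⊢
          exact hBc _ hY (Or.inr (hm_iff.mpr hd))
        by_cases hkm : k = 2
        · rw [hkm] at hd hY ⊢
          exact hBc _ hY (Or.inl (hm_iff.mpr hd))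
        have hz : cmp s k A * X - X * cmp s k A = 0 := Hm.zero_of hs hd (by
          rw [lt_abs]
          omega)
        rw [hz, Matrix.mul_zero, Matrix.zero_mul]
    have key2 : B * (A * X - X * A) = (A * X - X * A) * B := by
      have h2 : A * X - X * A = ∑ x ∈ Finset.Icc (-2 : ℤ) 2, (cmp s x A * X - X * cmp s x A) := by
        rw [Finset.sum_sub_distrib, ← Finset.sum_mul, ← Finset.mul_sum, ← sum_cmp hs A]
      rw [h2, Finset.sum_mul, Finset.mul_sum]
      exact Finset.sum_congr rfl fun k hk => key k hk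
    have e1 : A * (B * X) = A * (X * B) := by rw [hBX]
    have e2 : B * X * A = X * B * A := by rw [hBX]
    have e5 : (A * B - B * A) * X - X * (A * B - B * A) =
        (A * (B * X) - A * (X * B)) - (B * X * A - X * B * A) -
          (B * (A * X - X * A) - (A * X - X * A) * B) := by
      noncomm_ring
    rw [e1, e2, key2] at e5
    simp only [sub_self] at e5
    exact sub_eq_zero.mp e5
  refine ⟨⟨fun A hA => hA.1, hid⟩, ?_, ?_⟩
  · intro B hB
    have h2 := (comm_iff (s := s) (B := B) 0).mpr (hdeg B hB)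
    rw [Int.cast_zero, zero_smul] at h2
    exact sub_eq_zero.mp h2
  · rintro X hX ⟨c, hc⟩ B hB
    have h2 := hid X hX B hB
    refine sub_eq_zero.mp (zero_of_top spb tpi gs hs h1 h0 (mem_cen.mp h2).2 ?_)
    have hXv : ∀ v : Fin n → K, Vh s 1 v → X.mulVec v = c • v := by
      intro v hv
      have hTv : (Matrix.diagonal (fun j => (s j : K)) * Matrix.diagonal (fun j => (s j : K)) +
          Matrix.diagonal (fun j => (s j : K))).mulVec v = (2 : K) • v := by
        rw [Matrix.diagonal_mul_diagonal, Matrix.diagonal_add]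
        funext j
        rw [Matrix.mulVec_diagonal, Pi.smul_apply, smul_eq_mul]
        by_cases hj : v j = 0
        · rw [hj, mul_zero, mul_zero]
        · rw [hv j hj]
          norm_num
      have h3 : (X * (Matrix.diagonal (fun j => (s j : K)) * Matrix.diagonal (fun j => (s j : K)) +
          Matrix.diagonal (fun j => (s j : K)))).mulVec v =
          (c • (Matrix.diagonal (fun j => (s j : K)) * Matrix.diagonal (fun j => (s j : K)) +
            Matrix.diagonal (fun j => (s j : K)))).mulVec v := by rw [hc]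
      rw [← Matrix.mulVec_mulVec, Matrix.smul_mulVec, hTv, Matrix.mulVec_smul, smul_comm] at h3
      exact smul_right_injective _ (two_ne_zero : (2 : K) ≠ 0) h3
    intro v hv
    rw [Matrix.sub_mulVec, ← Matrix.mulVec_mulVec, ← Matrix.mulVec_mulVec, hXv v hv,
      hXv _ (Vh.mulVec (hdeg B hB) hv (by norm_num)), Matrix.mulVec_smul, sub_self]

end IDLx

open IDLx Wtx

/-- IDL -/
theorem st_IDL (spb : ST_SPB) (tpi : ST_TPI) (gra : ST_GRA) : ST_IDL := by
  intro K _ _ _ n ε ψ P s a hsym hsign hirs hs hex hex0 hsT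
  obtain ⟨hdet, hbrk, hirr, hiso⟩ := hirs
  set p : Matrix (Fin n) (Fin n) K := (P : Matrix (Fin n) (Fin n) K) with hp
  set q : Matrix (Fin n) (Fin n) K :=
    ((P⁻¹ : Matrix.GeneralLinearGroup (Fin n) K) : Matrix (Fin n) (Fin n) K) with hq
  have hpq : p * q = 1 := p_q P
  have hqp : q * p = 1 := q_p P
  have hcj : ∀ X, cjP P X = p * X * q := fun X => rfl
  have hcm : ∀ X Y, cjP P (X * Y) = cjP P X * cjP P Y := by
    intro X Y
    rw [hcj, hcj, hcj]
    calc p * (X * Y) * q = p * X * 1 * Y * q := by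
          rw [Matrix.mul_one]; simp only [Matrix.mul_assoc]
      _ = _ := by rw [← hqp]; simp only [Matrix.mul_assoc]
  have hinj : Function.Injective (cjP P) := by
    intro X Y h
    rw [hcj, hcj] at h
    have h1 : q * (p * X * q) * p = q * (p * Y * q) * p := by rw [h]
    have h2 : ∀ X, q * (p * X * q) * p = X := by
      intro X
      calc q * (p * X * q) * p = (q * p) * X * (q * p) := by simp only [Matrix.mul_assoc]
        _ = X := by rw [hqp, Matrix.one_mul, Matrix.mul_one]
    rwa [h2, h2] at h1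
  have hsur : ∀ X, cjP P (q * X * p) = X := by
    intro X
    rw [hcj]
    calc p * (q * X * p) * q = (p * q) * X * (p * q) := by simp only [Matrix.mul_assoc]
      _ = X := by rw [hpq, Matrix.one_mul, Matrix.mul_one]
  have hTT : cjP P (Matrix.diagonal (fun j => (s j : K))) = dg P s := rfl
  have hTa : Matrix.diagonal (fun j => (s j : K)) ∈ a.comap (cjP P) := hsT
  have hbrk' : Brk (a.comap (cjP P)) := by
    intro A hA B hB
    show cjP P (A * B - B * A) ∈ a
    rw [map_sub, hcm, hcm]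
    exact hbrk _ hA _ hB
  have hcomp : ∀ A ∈ a.comap (cjP P), ∀ x : ℤ, cmp s x A ∈ a.comap (cjP P) :=
    gra K n _ s fun A hA => hbrk' _ hTa _ hA
  have hiso' : (Matrix.diagonal (fun j => (s j : K))).transpose * (p.transpose * ψ * p) +
      p.transpose * ψ * p * Matrix.diagonal (fun j => (s j : K)) = 0 := by
    have h1 := hiso _ hsT
    have h2 : p.transpose * ((dg P s).transpose * ψ + ψ * dg P s) * p = 0 := by
      rw [h1, Matrix.mul_zero, Matrix.zero_mul]
    have h3 : dg P s = p * Matrix.diagonal (fun j => (s j : K)) * q := rfl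
    have h4 : p.transpose * q.transpose = 1 := by
      rw [← Matrix.transpose_mul, hqp, Matrix.transpose_one]
    have h5 : ∀ X : Matrix (Fin n) (Fin n) K, p.transpose * (q.transpose * X) = X := fun X => by
      rw [← Matrix.mul_assoc, h4, Matrix.one_mul]
    rw [h3, Matrix.transpose_mul, Matrix.transpose_mul] at h2
    rw [← h2]
    simp only [Matrix.mul_add, Matrix.add_mul, Matrix.mul_assoc, h5, hqp, Matrix.mul_one]
  have hgrad : ∀ i j, (p.transpose * ψ * p) i j ≠ 0 → s i + s j = 0 := by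
    intro i j hij
    have h1 := congrFun (congrFun hiso' i) j
    rw [Matrix.diagonal_transpose, Matrix.add_apply, Matrix.diagonal_mul,
      Matrix.mul_diagonal, Matrix.zero_apply] at h1
    have h2 : ((s i + s j : ℤ) : K) * (p.transpose * ψ * p) i j = 0 := by
      rw [← h1]
      push_cast
      ring
    have h3 := (mul_eq_zero.mp h2).resolve_right hij
    exact_mod_cast h3
  have gs := chg (s := s) P hdet hsym hsign hbrk hirr hiso hgrad hcomp
  obtain ⟨c1, c2, c3⟩ := core spb tpi gs hs hex hex0 rfl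
  have hmem : ∀ X, X ∈ Cen (a.comap (cjP P)) (Matrix.diagonal (fun j => (s j : K))) ↔
      cjP P X ∈ Cen a (dg P s) := by
    intro X
    constructor
    · rintro ⟨hX, hX'⟩
      refine ⟨hX, fun B hB h => ?_⟩
      obtain ⟨B', rfl⟩ : ∃ B', B = cjP P B' := ⟨_, (hsur B).symm⟩
      rw [← hcm, ← hcm, hX' B' hB]
      rw [← hTT, ← hcm, ← hcm, ← map_sub, ← map_neg, hinj.eq_iff, hinj.eq_iff] at h
      exact h
    · rintro ⟨hX, hX'⟩
      refine ⟨hX, fun B hB h => ?_⟩
      apply hinj
      rw [hcm, hcm]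
      refine hX' _ hB ?_
      rw [← hTT, ← hcm, ← hcm, ← map_sub, ← map_neg, hinj.eq_iff, hinj.eq_iff]
      exact h
  refine ⟨⟨fun A hA => hA.1, fun A hA B hB => ?_⟩, fun B hB => ?_, ?_⟩
  · obtain ⟨A', rfl⟩ : ∃ A', A = cjP P A' := ⟨_, (hsur A).symm⟩
    obtain ⟨B', rfl⟩ : ∃ B', B = cjP P B' := ⟨_, (hsur B).symm⟩
    rw [← hcm, ← hcm, ← map_sub, ← hmem]
    exact c1.2 A' hA B' ((hmem B').mpr hB)
  · obtain ⟨B', rfl⟩ : ∃ B', B = cjP P B' := ⟨_, (hsur B).symm⟩
    rw [← hTT, ← hcm, ← hcm, c2 B' ((hmem B').mpr hB)]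
  · rintro X hX ⟨c, hc⟩ B hB
    obtain ⟨X', rfl⟩ : ∃ X', X = cjP P X' := ⟨_, (hsur X).symm⟩
    obtain ⟨B', rfl⟩ : ∃ B', B = cjP P B' := ⟨_, (hsur B).symm⟩
    rw [← hcm, ← hcm, c3 X' hX ⟨c, ?_⟩ B' ((hmem B').mpr hB)]
    apply hinj
    rw [hcm, map_smul, map_add, hcm, hTT]
    exact hc

end MT
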